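import Mathlib

set_option autoImplicit false

open Cardinal Order Set Filter Topology

namespace Pool.Agent.Results.MP_0e046d_gt.NormalExtent

universe u

/-- `C_p(X)`: the continuous real-valued functions on `X`, as a linear subspace of `X → ℝ` with the
product topology (the topology of pointwise convergence). It is written as the range of the linear
map that sends a continuous map `X → ℝ` to its underlying function. -/
def Cp (X : Type u) [TopologicalSpace X] : Submodule ℝ (X → ℝ) :=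
  LinearMap.range (ContinuousMap.coeFnLinearMap ℝ : C(X, ℝ) →ₗ[ℝ] X → ℝ)

/-- `X` and `Y` are `l`-equivalent: there is a linear homeomorphism of `C_p(X)` onto `C_p(Y)`. -/
def LEquivalent (X Y : Type u) [TopologicalSpace X] [TopologicalSpace Y] : Prop :=
  Nonempty (Cp X ≃L[ℝ] Cp Y)

/-- The extent of `X`: `ω` plus the supremum of the cardinalities of the closed discrete subsets. -/
noncomputable def extent (X : Type u) [TopologicalSpace X] : Cardinal.{u} :=
  ℵ₀ + ⨆ D : {D : Set X // IsClosed D ∧ DiscreteTopology D}, #D.1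

theorem mem_Cp {X : Type u} [TopologicalSpace X] {f : X → ℝ} : f ∈ Cp X ↔ Continuous f := by
  constructor
  · rintro ⟨g, rfl⟩; exact g.continuous
  · intro hf; exact ⟨⟨f, hf⟩, rfl⟩

/-! ### Cardinal arithmetic: sets of size at most `τ` are small -/

theorem small_biUnion {Z ι : Type u} {τ : Cardinal.{u}} (hτ : ℵ₀ ≤ τ) (s : Set ι) (hs : #s ≤ τ)
    (f : ι → Set Z) (hf : ∀ i ∈ s, #(f i) ≤ τ) : #(⋃ i ∈ s, f i : Set Z) ≤ τ := by
  refine (mk_biUnion_le _ _).trans ?_
  calc #s * ⨆ i : s, #(f i.1) ≤ τ * τ :=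
        mul_le_mul' hs (ciSup_le' fun i => hf i.1 i.2)
    _ = τ := mul_eq_self hτ

theorem large_nat {Z : Type u} {τ : Cardinal.{u}} (hτ : ℵ₀ ≤ τ) (A : Set Z) (hA : τ < #A)
    (P : ℕ → Z → Prop) (h : ∀ d ∈ A, ∃ n, P n d) : ∃ n, τ < #{d ∈ A | P n d} := by
  by_contra hc
  push Not at hc
  have h2 : A ⊆ ⋃ m : ULift.{u} ℕ, {d ∈ A | P m.down d} := by
    intro d hd
    obtain ⟨n, hn⟩ := h d hd
    simp only [mem_iUnion]
    exact ⟨⟨n⟩, hd, hn⟩
  have h3 : #A ≤ τ := by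
    refine (mk_le_mk_of_subset h2).trans ((mk_iUnion_le _).trans ?_)
    calc #(ULift.{u} ℕ) * ⨆ m : ULift.{u} ℕ, #{d ∈ A | P m.down d} ≤ τ * τ := by
          refine mul_le_mul' ?_ (ciSup_le' fun m => hc m.down)
          simpa using hτ
      _ = τ := mul_eq_self hτ
  exact absurd h3 (not_le.mpr hA)

theorem large_ctbl {Z : Type u} {τ : Cardinal.{u}} (hτ : ℵ₀ ≤ τ) (A : Set Z) (hA : τ < #A)
    {ι : Type} [Countable ι] [Nonempty ι] (P : ι → Z → Prop) (h : ∀ d ∈ A, ∃ i, P i d) :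
    ∃ i, τ < #{d ∈ A | P i d} := by
  obtain ⟨f, hf⟩ := exists_surjective_nat ι
  obtain ⟨n, hn⟩ := large_nat hτ A hA (fun n => P (f n)) (by
    intro d hd
    obtain ⟨i, hi⟩ := h d hd
    obtain ⟨n, rfl⟩ := hf i
    exact ⟨n, hi⟩)
  exact ⟨f n, hn⟩

theorem large_diff {Z : Type u} {τ : Cardinal.{u}} (hτ : ℵ₀ ≤ τ) {A B : Set Z} (hA : τ < #A)
    (hB : #B ≤ τ) : τ < #(A \ B : Set Z) := by
  by_contra hc
  rw [not_lt] at hc
  have h1 : A ⊆ (A \ B) ∪ B := by
    intro x hx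
    by_cases h : x ∈ B
    · exact Or.inr h
    · exact Or.inl ⟨hx, h⟩
  have h2 : #A ≤ τ := by
    refine (mk_le_mk_of_subset h1).trans ((mk_union_le _ _).trans ?_)
    calc #(A \ B : Set Z) + #B ≤ τ + τ := add_le_add hc hB
      _ = τ := add_eq_self hτ
  exact absurd h2 (not_le.mpr hA)

/-! ### Extension of functions -/

section ext

variable {Y : Type u} [TopologicalSpace Y] [T4Space Y]

/-- every real function on a closed discrete subset extends -/
theorem extend {D : Set Y} (hD : IsClosed D) (hdis : DiscreteTopology D) (r : Y → ℝ) :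
    ∃ h : Cp Y, ∀ d ∈ D, h.1 d = r d := by
  obtain ⟨g, hg⟩ := ContinuousMap.exists_restrict_eq hD
    (⟨fun d : D => r d, continuous_of_discreteTopology⟩ : C(D, ℝ))
  refine ⟨⟨g, mem_Cp.mpr g.continuous⟩, fun d hd => ?_⟩
  have := congrArg (fun k : C(D, ℝ) => k ⟨d, hd⟩) hg
  exact this

/-- Urysohn functions -/
theorem urysohn {s t : Set Y} (hs : IsClosed s) (ht : IsClosed t) (hst : Disjoint s t) :
    ∃ h : Cp Y, (∀ y ∈ s, h.1 y = 0) ∧ ∀ y ∈ t, h.1 y = 1 := by
  obtain ⟨f, h0, h1, _⟩ := exists_continuous_zero_one_of_isClosed hs ht hst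
  exact ⟨⟨f, mem_Cp.mpr f.continuous⟩, fun y hy => h0 hy, fun y hy => h1 hy⟩

theorem closed_subset {D A : Set Y} (hD : IsClosed D) (hdis : DiscreteTopology D) (hA : A ⊆ D) :
    IsClosed A := by
  obtain ⟨h, hh⟩ := extend hD hdis (fun y => by classical exact if y ∈ A then 0 else 1)
  have h1 : A = D ∩ {y | h.1 y = 0} := by
    ext y
    constructor
    · intro hy
      refine ⟨hA hy, ?_⟩
      show h.1 y = 0
      rw [hh y (hA hy), if_pos hy]
    · rintro ⟨hy, hy2⟩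
      by_contra hc
      have : h.1 y = 0 := hy2
      rw [hh y hy, if_neg hc] at this
      exact one_ne_zero this
  rw [h1]
  exact hD.inter (isClosed_eq (mem_Cp.mp h.2) continuous_const)

end ext

/-! ### A point `p d ≠ d` cannot follow `d` for almost all `d` in a large closed discrete set -/

section follow

variable {Y : Type u} [TopologicalSpace Y] [T4Space Y]

theorem no_follow {τ : Cardinal.{u}} (hτ : ℵ₀ ≤ τ) {D : Set Y} (hD : IsClosed D)
    (hdis : DiscreteTopology D) {A : Set Y} (hAD : A ⊆ D) (hA : τ < #A) (p : Y → Y)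
    (hp : ∀ d ∈ A, p d ≠ d) : ∃ h : Cp Y, τ < #{d ∈ A | h.1 (p d) ≠ h.1 d} := by
  classical
  by_contra hcon
  push Not at hcon
  have hAne : A.Nonempty := by
    by_contra hne
    rw [not_nonempty_iff_eq_empty] at hne
    rw [hne, mk_eq_zero] at hA
    exact absurd hA (by simp)
  have : Nonempty Y := ⟨hAne.some⟩
  -- the family of bad sets
  let Bad : Set Y → Prop := fun E => ∃ (C : Set Y) (d₀ : Y), E = insert d₀ C ∧ C ⊆ A ∧ #C ≤ τ ∧
    d₀ ∈ A ∧ d₀ ∉ C ∧ d₀ ∈ closure (p '' C)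
  -- each point has a neighbourhood that contains few points `p d`
  have ha : ∀ d₀ ∈ A, ∃ V : Set Y, IsOpen V ∧ d₀ ∈ V ∧ #{d ∈ A | d ≠ d₀ ∧ p d ∈ V} ≤ τ := by
    intro d₀ hd₀
    obtain ⟨h, hh⟩ := extend hD hdis (fun y => if y = d₀ then 0 else 1)
    refine ⟨{y | h.1 y < 1/2}, isOpen_lt (mem_Cp.mp h.2) continuous_const, ?_, ?_⟩
    · show h.1 d₀ < 1/2
      rw [hh d₀ (hAD hd₀), if_pos rfl]
      norm_num
    · refine (mk_le_mk_of_subset ?_).trans (hcon h)
      rintro d ⟨hd, hne, hd2⟩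
      refine ⟨hd, ?_⟩
      have h1 : h.1 (p d) < 1/2 := hd2
      rw [hh d (hAD hd), if_neg hne]
      intro heq
      rw [heq] at h1
      norm_num at h1
  -- every large subset contains a bad set
  have hb : ∀ A' ⊆ A, τ < #A' → ∃ E ⊆ A', Bad E := by
    intro A' hA' hlarge
    by_contra hno
    push Not at hno
    have hdisj : Disjoint A' (closure (p '' A')) := by
      rw [Set.disjoint_left]
      intro d₀ hd₀ hcl
      obtain ⟨V, hV, hdV, hVs⟩ := ha d₀ (hA' hd₀)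
      have hCs : #{d ∈ A' | d ≠ d₀ ∧ p d ∈ V} ≤ τ := by
        have hsub : {d ∈ A' | d ≠ d₀ ∧ p d ∈ V} ⊆ {d ∈ A | d ≠ d₀ ∧ p d ∈ V} :=
          fun d hd => ⟨hA' hd.1, hd.2⟩
        exact (mk_le_mk_of_subset hsub).trans hVs
      have hncl : d₀ ∉ closure (p '' {d ∈ A' | d ≠ d₀ ∧ p d ∈ V}) := by
        intro hc
        refine hno (insert d₀ {d ∈ A' | d ≠ d₀ ∧ p d ∈ V}) ?_ ⟨_, d₀, rfl, ?_, hCs, hA' hd₀, ?_, hc⟩
        · intro y hy
          rcases hy with hy | hy
          · rw [hy]; exact hd₀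
          · exact hy.1
        · exact fun d hd => hA' hd.1
        · exact fun h => h.2.1 rfl
      have hW : IsOpen (V ∩ (closure (p '' {d ∈ A' | d ≠ d₀ ∧ p d ∈ V}))ᶜ ∩ {p d₀}ᶜ) :=
        (hV.inter isClosed_closure.isOpen_compl).inter isClosed_singleton.isOpen_compl
      have hdW : d₀ ∈ V ∩ (closure (p '' {d ∈ A' | d ≠ d₀ ∧ p d ∈ V}))ᶜ ∩ {p d₀}ᶜ :=
        ⟨⟨hdV, hncl⟩, fun h => hp d₀ (hA' hd₀) (Set.mem_singleton_iff.mp h).symm⟩
      obtain ⟨y, ⟨⟨hy1, hy2⟩, hy3⟩, d, hd, rfl⟩ := mem_closure_iff.mp hcl _ hW hdW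
      by_cases hdd : d = d₀
      · subst hdd; exact hy3 rfl
      · exact hy2 (subset_closure ⟨d, ⟨hd, hdd, hy1⟩, rfl⟩)
    obtain ⟨h, h0, h1⟩ := urysohn (closed_subset hD hdis (hA'.trans hAD)) isClosed_closure hdisj
    have h2 : A' ⊆ {d ∈ A | h.1 (p d) ≠ h.1 d} := by
      intro d hd
      refine ⟨hA' hd, ?_⟩
      rw [h0 d hd, h1 (p d) (subset_closure ⟨d, hd, rfl⟩)]
      exact one_ne_zero
    exact absurd ((mk_le_mk_of_subset h2).trans (hcon h)) (not_le.mpr hlarge)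
  -- a maximal disjoint family of bad sets
  obtain ⟨𝓜, hmax⟩ := zorn_subset {𝓜 : Set (Set Y) | (∀ E ∈ 𝓜, Bad E) ∧ 𝓜.PairwiseDisjoint id} (by
    intro c hc hchain
    refine ⟨⋃₀ c, ⟨?_, ?_⟩, fun s hs => subset_sUnion_of_mem hs⟩
    · rintro E ⟨s, hs, hE⟩
      exact (hc hs).1 E hE
    · rw [Set.pairwiseDisjoint_sUnion hchain.directedOn]
      exact fun s hs => (hc hs).2)
  obtain ⟨⟨hM1, hM2⟩, hM3⟩ := hmax
  have hMbig : τ < #𝓜 := by
    by_contra hc
    rw [not_lt] at hc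
    have h1 : #(⋃ E ∈ 𝓜, E : Set Y) ≤ τ := by
      apply small_biUnion hτ 𝓜 hc (fun E => E)
      intro E hE
      obtain ⟨C, d₀, rfl, _, hC, _⟩ := hM1 E hE
      refine (mk_insert_le).trans ?_
      calc #C + 1 ≤ τ + τ := add_le_add hC (one_le_aleph0.trans hτ)
        _ = τ := add_eq_self hτ
    obtain ⟨E, hE1, hE2⟩ := hb (A \ ⋃ E ∈ 𝓜, E) sdiff_subset (large_diff hτ hA h1)
    have hEne : E.Nonempty := by
      obtain ⟨C, d₀, rfl, _⟩ := hE2
      exact ⟨d₀, mem_insert _ _⟩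
    have hEdis : ∀ F ∈ 𝓜, Disjoint E F := by
      intro F hF
      rw [Set.disjoint_left]
      intro y hy hyF
      exact (hE1 hy).2 (by simp only [mem_iUnion]; exact ⟨F, hF, hyF⟩)
    have hins : insert E 𝓜 ∈ {𝓜 : Set (Set Y) | (∀ E ∈ 𝓜, Bad E) ∧ 𝓜.PairwiseDisjoint id} := by
      refine ⟨?_, ?_⟩
      · intro F hF
        rcases hF with rfl | hF
        · exact hE2
        · exact hM1 F hF
      · rw [Set.pairwiseDisjoint_insert]
        exact ⟨hM2, fun F hF _ => hEdis F hF⟩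
    have hEM : E ∈ 𝓜 := hM3 hins (subset_insert _ _) (mem_insert _ _)
    obtain ⟨y, hy⟩ := hEne
    exact Set.disjoint_left.mp (hEdis E hEM) hy hy
  choose! C d₀ hEq hCA hCs hdA hdC hdcl using hM1
  -- the function that is `1` exactly at the points `d₀ E`
  obtain ⟨h, hh⟩ := extend hD hdis (fun y => if ∃ E ∈ 𝓜, y = d₀ E then 1 else 0)
  have hC0 : ∀ E ∈ 𝓜, ∀ d ∈ C E, h.1 d = 0 := by
    intro E hE d hd
    rw [hh d (hAD (hCA E hE hd)), if_neg]
    rintro ⟨F, hF, rfl⟩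
    by_cases hEF : E = F
    · subst hEF; exact hdC E hE hd
    · have h1 := hM2 hE hF hEF
      have h3 : d₀ F ∈ E := by
        rw [hEq E hE]; exact mem_insert_of_mem _ hd
      have h4 : d₀ F ∈ F := by
        have h2 := hEq F hF
        have h5 : d₀ F ∈ insert (d₀ F) (C F) := mem_insert _ _
        rwa [← h2] at h5
      exact Set.disjoint_left.mp h1 h3 h4
  have hmeet : ∀ E ∈ 𝓜, ∃ d ∈ C E, h.1 (p d) ≠ h.1 d := by
    intro E hE
    by_contra hno
    push Not at hno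
    have h1 : closure (p '' C E) ⊆ {y | h.1 y = 0} := by
      apply closure_minimal _ (isClosed_eq (mem_Cp.mp h.2) continuous_const)
      rintro _ ⟨d, hd, rfl⟩
      show h.1 (p d) = 0
      rw [hno d hd, hC0 E hE d hd]
    have h2 : h.1 (d₀ E) = 0 := h1 (hdcl E hE)
    rw [hh _ (hAD (hdA E hE)), if_pos ⟨E, hE, rfl⟩] at h2
    exact one_ne_zero h2
  choose! e he1 he2 using hmeet
  have hinj : Set.InjOn e 𝓜 := by
    intro E hE F hF hEF
    by_contra hne
    have h1 := hM2 hE hF hne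
    have key : ∀ G ∈ 𝓜, e G ∈ G := by
      intro G hG
      have h2 := hEq G hG
      have h3 : e G ∈ insert (d₀ G) (C G) := mem_insert_of_mem _ (he1 G hG)
      rwa [← h2] at h3
    have h4 : e E ∈ F := by
      rw [hEF]; exact key F hF
    exact Set.disjoint_left.mp h1 (key E hE) h4
  have hsub : e '' 𝓜 ⊆ {d ∈ A | h.1 (p d) ≠ h.1 d} := by
    rintro _ ⟨E, hE, rfl⟩
    exact ⟨hCA E hE (he1 E hE), he2 E hE⟩
  have hcard : #𝓜 ≤ τ := by
    rw [← mk_image_eq_of_injOn e 𝓜 hinj]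
    exact (mk_le_mk_of_subset hsub).trans (hcon h)
  exact absurd hcard (not_le.mpr hMbig)

theorem separate {τ : Cardinal.{u}} (hτ : ℵ₀ ≤ τ) {D : Set Y} (hD : IsClosed D)
    (hdis : DiscreteTopology D) (m : ℕ) : ∀ (A : Set Y), A ⊆ D → τ < #A → ∀ F : Y → Finset Y,
    (∀ d ∈ A, d ∉ F d ∧ (F d).card ≤ m) →
    ∃ h : Cp Y, τ < #{d ∈ A | ∀ y ∈ F d, h.1 y ≠ h.1 d} := by
  classical
  induction m with
  | zero =>
    intro A _ hA F hF
    refine ⟨0, lt_of_lt_of_le hA (mk_le_mk_of_subset ?_)⟩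
    intro d hd
    refine ⟨hd, fun y hy => ?_⟩
    have h1 : F d = ∅ := Finset.card_eq_zero.mp (Nat.le_zero.mp (hF d hd).2)
    rw [h1] at hy
    exact absurd hy (Finset.notMem_empty y)
  | succ m ih =>
    intro A hAD hA F hF
    by_cases hE : τ < #{d ∈ A | F d = ∅}
    · refine ⟨0, lt_of_lt_of_le hE (mk_le_mk_of_subset ?_)⟩
      intro d hd
      refine ⟨hd.1, fun y hy => ?_⟩
      rw [hd.2] at hy
      exact absurd hy (Finset.notMem_empty y)
    rw [not_lt] at hE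
    have hA1 := large_diff hτ hA hE
    have hne : ∀ d : Y, ∃ q : Y, d ∈ A \ {d ∈ A | F d = ∅} → q ∈ F d := by
      intro d
      by_cases hd : d ∈ A \ {d ∈ A | F d = ∅}
      · have h1 : (F d).Nonempty := by
          rw [Finset.nonempty_iff_ne_empty]
          exact fun h => hd.2 ⟨hd.1, h⟩
        exact ⟨h1.choose, fun _ => h1.choose_spec⟩
      · exact ⟨d, fun h => absurd h hd⟩
    choose p hp using hne
    obtain ⟨h', hh'⟩ := ih (A \ {d ∈ A | F d = ∅}) (sdiff_subset.trans hAD) hA1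
      (fun d => (F d).erase (p d)) (by
        intro d hd
        refine ⟨fun h => (hF d hd.1).1 (Finset.mem_of_mem_erase h), ?_⟩
        rw [Finset.card_erase_of_mem (hp d hd)]
        have := (hF d hd.1).2
        omega)
    obtain ⟨h'', hh''⟩ := no_follow hτ hD hdis
      (A := {d ∈ A \ {d ∈ A | F d = ∅} | ∀ y ∈ (F d).erase (p d), h'.1 y ≠ h'.1 d})
      (fun d hd => hAD hd.1.1) hh' p (by
        intro d hd heq
        apply (hF d hd.1.1).1
        have h1 := hp d hd.1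
        rwa [heq] at h1)
    obtain ⟨c, hc⟩ := large_nat hτ _ hh''
      (fun c d => ∀ y ∈ F d, h'.1 y + c * h''.1 y ≠ h'.1 d + c * h''.1 d) (by
        intro d hd
        have hfin : (⋃ y ∈ F d, {c : ℕ | h'.1 y + c * h''.1 y = h'.1 d + c * h''.1 d}).Finite := by
          refine (F d).finite_toSet.biUnion (fun y hy => ?_)
          apply Set.Subsingleton.finite
          intro c hc c' hc'
          by_contra hne
          have e1 : h'.1 y + c * h''.1 y = h'.1 d + c * h''.1 d := hc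
          have e2 : h'.1 y + c' * h''.1 y = h'.1 d + c' * h''.1 d := hc'
          have e3 : ((c : ℝ) - c') * (h''.1 y - h''.1 d) = 0 := by linear_combination e1 - e2
          rcases mul_eq_zero.mp e3 with e4 | e4
          · apply hne
            have : (c : ℝ) = c' := by linarith
            exact_mod_cast this
          · have e5 : h''.1 y = h''.1 d := by linarith
            have e6 : h'.1 y = h'.1 d := by rw [e5] at e1; linarith
            by_cases hyp : y = p d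
            · subst hyp; exact hd.2 e5
            · exact hd.1.2 y (Finset.mem_erase.mpr ⟨hyp, hy⟩) e6
        obtain ⟨c, hc⟩ := hfin.infinite_compl.nonempty
        refine ⟨c, fun y hy heq => hc ?_⟩
        simp only [mem_iUnion]
        exact ⟨y, hy, heq⟩)
    refine ⟨h' + (c : ℝ) • h'', lt_of_lt_of_le hc (mk_le_mk_of_subset ?_)⟩
    rintro d ⟨hd, hd2⟩
    exact ⟨hd.1.1.1, hd2⟩

end follow

/-! ### Supports -/

section supports

variable {X Y : Type u} [TopologicalSpace X] [TopologicalSpace Y]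

/-- the value of `T g` at `x` depends only on the values of `g` on the finite set `K` -/
def Ctrl (T : Cp Y →L[ℝ] Cp X) (x : X) (K : Finset Y) : Prop :=
  ∀ g : Cp Y, (∀ y ∈ K, g.1 y = 0) → (T g).1 x = 0

theorem exists_ctrl (T : Cp Y →L[ℝ] Cp X) (x : X) : ∃ K : Finset Y, Ctrl T x K := by
  let L : Cp Y → ℝ := fun g => (T g).1 x
  have hLc : Continuous L := (continuous_apply x).comp (continuous_subtype_val.comp T.continuous)
  have h1 : {f : Cp Y | |L f| < 1} ∈ 𝓝 (0 : Cp Y) := by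
    have h2 : Continuous fun f : Cp Y => |L f| := continuous_abs.comp hLc
    exact (isOpen_lt h2 continuous_const).mem_nhds (by simp [L])
  rw [nhds_subtype_eq_comap, mem_comap] at h1
  obtain ⟨N, hN, hN2⟩ := h1
  rw [nhds_pi, Filter.mem_pi] at hN
  obtain ⟨I, hI, t, ht, hN3⟩ := hN
  refine ⟨hI.toFinset, fun f hf => ?_⟩
  have h3 : ∀ c : ℝ, |L (c • f)| < 1 := by
    intro c
    apply hN2
    rw [mem_preimage]
    apply hN3
    intro i hi
    have h4 : ((c • f : Cp Y) : Y → ℝ) i = 0 := by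
      have := hf i (hI.mem_toFinset.mpr hi)
      simp only [Submodule.coe_smul, Pi.smul_apply, smul_eq_mul]
      rw [this, mul_zero]
    rw [h4]
    exact mem_of_mem_nhds (ht i)
  by_contra hne
  have h5 := h3 (2 / L f)
  have h6 : L ((2 / L f) • f) = 2 := by
    show (T ((2 / L f) • f)).1 x = 2
    rw [map_smul]
    show 2 / L f * L f = 2
    exact div_mul_cancel₀ _ hne
  rw [h6] at h5
  norm_num at h5

theorem exists_support (T : Cp Y →L[ℝ] Cp X) (x : X) : ∃ K : Finset Y, Ctrl T x K ∧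
    ∀ y ∈ K, ∃ μ : ℝ, μ ≠ 0 ∧ ∀ g : Cp Y, (∀ z ∈ K, z ≠ y → g.1 z = 0) →
      (T g).1 x = μ * g.1 y := by
  classical
  have hex : ∃ n, ∃ K : Finset Y, Ctrl T x K ∧ K.card = n := by
    obtain ⟨K, hK⟩ := exists_ctrl T x
    exact ⟨_, K, hK, rfl⟩
  obtain ⟨K, hK, hcard⟩ := Nat.find_spec hex
  refine ⟨K, hK, fun y hy => ?_⟩
  have h1 : ¬ Ctrl T x (K.erase y) := by
    intro h
    refine Nat.find_min hex (m := (K.erase y).card) ?_ ⟨_, h, rfl⟩
    rw [← hcard]
    exact Finset.card_erase_lt_of_mem hy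
  unfold Ctrl at h1
  push Not at h1
  obtain ⟨g₀, hg1, hg2⟩ := h1
  have hg3 : g₀.1 y ≠ 0 := by
    intro h0
    apply hg2
    apply hK
    intro z hz
    by_cases hzy : z = y
    · rw [hzy]; exact h0
    · exact hg1 z (Finset.mem_erase.mpr ⟨hzy, hz⟩)
  refine ⟨(T g₀).1 x / g₀.1 y, div_ne_zero hg2 hg3, fun g hg => ?_⟩
  have h2 := hK (g - (g.1 y / g₀.1 y) • g₀) (by
    intro z hz
    show g.1 z - (g.1 y / g₀.1 y) * g₀.1 z = 0
    by_cases hzy : z = y
    · rw [hzy]; field_simp; ring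
    · rw [hg z hz hzy, hg1 z (Finset.mem_erase.mpr ⟨hzy, hz⟩)]; ring)
  rw [map_sub, map_smul] at h2
  have h3 : (T g).1 x - (g.1 y / g₀.1 y) * (T g₀).1 x = 0 := h2
  field_simp
  field_simp at h3
  linarith

theorem exists_point [T4Space Y] (φ : Cp X ≃L[ℝ] Cp Y) (K : X → Finset Y)
    (hK : ∀ x, Ctrl (φ.symm : Cp Y →L[ℝ] Cp X) x (K x)) (d : Y) : ∃ x, d ∈ K x := by
  classical
  by_contra hcon
  push Not at hcon
  obtain ⟨J, hJ⟩ := exists_ctrl (φ : Cp X →L[ℝ] Cp Y) d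
  have hfin : (((J.biUnion K : Finset Y)) : Set Y).Finite := Finset.finite_toSet _
  obtain ⟨g, hg0, hg1⟩ := urysohn hfin.isClosed (isClosed_singleton (x := d)) (by
    rw [Set.disjoint_singleton_right]
    intro h
    rw [Finset.mem_coe, Finset.mem_biUnion] at h
    obtain ⟨x, _, hx⟩ := h
    exact hcon x hx)
  have h1 := hJ (φ.symm g) (fun x hx => hK x g (fun y hy => hg0 y (by
    rw [Finset.mem_coe, Finset.mem_biUnion]
    exact ⟨x, hx, hy⟩)))
  simp only [ContinuousLinearEquiv.coe_coe, ContinuousLinearEquiv.apply_symm_apply] at h1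
  rw [hg1 d rfl] at h1
  exact one_ne_zero h1

end supports

/-! ### The main argument -/

section main

variable {X Y : Type u} [TopologicalSpace X] [TopologicalSpace Y]

theorem closed_discrete_of [T1Space X] (S : Set X)
    (h : ∀ z, ∃ U : Set X, IsOpen U ∧ z ∈ U ∧ (U ∩ S).Finite) :
    IsClosed S ∧ DiscreteTopology S := by
  have key : ∀ x : X, Disjoint (𝓝[≠] x) (𝓟 S) := by
    intro z
    rw [Filter.disjoint_principal_right]
    obtain ⟨U, hU, hz, hfin⟩ := h z
    rw [mem_nhdsWithin]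
    refine ⟨U ∩ ((U ∩ S) \ {z})ᶜ, hU.inter (hfin.subset sdiff_subset).isClosed.isOpen_compl,
      ⟨hz, fun h => h.2 rfl⟩, ?_⟩
    rintro y ⟨⟨hyU, hy⟩, hyz⟩ hyS
    exact hy ⟨⟨hyU, hyS⟩, hyz⟩
  have h1 := isClosed_and_discrete_iff.mpr key
  exact ⟨h1.1, isDiscrete_iff_discreteTopology.mp h1.2⟩

theorem card_le [T1Space X] [T4Space Y] (φ : Cp X ≃L[ℝ] Cp Y) (τ : Cardinal.{u}) (hτ : ℵ₀ ≤ τ)
    (hX : ∀ S : Set X, IsClosed S → DiscreteTopology S → #S ≤ τ) (D : Set Y) (hD : IsClosed D)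
    (hdis : DiscreteTopology D) : #D ≤ τ := by
  classical
  by_contra hcon
  rw [not_le] at hcon
  choose K hK hKμ using exists_support (φ.symm : Cp Y →L[ℝ] Cp X)
  choose x hx using exists_point φ K hK
  have hμ : ∀ d : Y, ∃ μ : ℝ, μ ≠ 0 ∧ ∀ g : Cp Y, (∀ z ∈ K (x d), z ≠ d → g.1 z = 0) →
      (φ.symm g).1 (x d) = μ * g.1 d := fun d => hKμ (x d) d (hx d)
  choose μ hμ0 hμ using hμ
  -- bounded size of the supports
  obtain ⟨m, hm⟩ := large_nat hτ D hcon (fun m d => ((K (x d)).erase d).card ≤ m)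
    (fun d _ => ⟨_, le_rfl⟩)
  obtain ⟨h, hh⟩ := separate hτ hD hdis m {d ∈ D | ((K (x d)).erase d).card ≤ m}
    (fun d hd => hd.1) hm (fun d => (K (x d)).erase d)
    (fun d hd => ⟨Finset.notMem_erase d _, hd.2⟩)
  obtain ⟨⟨a, b⟩, hab⟩ := large_ctbl hτ _ hh (ι := ℚ × ℚ) (fun q d => (q.1 : ℝ) < h.1 d ∧
    h.1 d < q.2 ∧ ∀ y ∈ (K (x d)).erase d, ¬ ((q.1 : ℝ) < h.1 y ∧ h.1 y < q.2)) (by
      intro d hd
      have hcl : IsClosed ((((K (x d)).erase d).image (fun y => h.1 y) : Finset ℝ) : Set ℝ) :=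
        (Finset.finite_toSet _).isClosed
      have hmem : h.1 d ∈ ((((K (x d)).erase d).image (fun y => h.1 y) : Finset ℝ) : Set ℝ)ᶜ := by
        intro hc
        rw [Finset.mem_coe, Finset.mem_image] at hc
        obtain ⟨y, hy, hye⟩ := hc
        exact hd.2 y hy hye
      obtain ⟨ε, hε, hball⟩ := Metric.isOpen_iff.mp hcl.isOpen_compl _ hmem
      obtain ⟨a, ha1, ha2⟩ := exists_rat_btwn (show h.1 d - ε < h.1 d by linarith)
      obtain ⟨b, hb1, hb2⟩ := exists_rat_btwn (show h.1 d < h.1 d + ε by linarith)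
      refine ⟨(a, b), ha2, hb1, fun y hy hyab => ?_⟩
      have h1 : h.1 y ∈ Metric.ball (h.1 d) ε := by
        rw [Metric.mem_ball, Real.dist_eq, abs_lt]
        obtain ⟨h2, h3⟩ := hyab
        simp only at h2 h3
        constructor <;> linarith
      apply hball h1
      rw [Finset.mem_coe, Finset.mem_image]
      exact ⟨y, hy, rfl⟩)
  simp only at hab
  obtain ⟨A, hAdef⟩ : ∃ A : Set Y, A = {d ∈ {d ∈ {d ∈ D | ((K (x d)).erase d).card ≤ m} |
      ∀ y ∈ (K (x d)).erase d, h.1 y ≠ h.1 d} | (a : ℝ) < h.1 d ∧ h.1 d < b ∧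
      ∀ y ∈ (K (x d)).erase d, ¬ ((a : ℝ) < h.1 y ∧ h.1 y < b)} := ⟨_, rfl⟩
  rw [← hAdef] at hab
  have hAD : A ⊆ D := by
    rw [hAdef]
    exact fun d hd => hd.1.1.1
  have hA1 : ∀ d ∈ A, (a : ℝ) < h.1 d ∧ h.1 d < b ∧
      ∀ y ∈ (K (x d)).erase d, ¬ ((a : ℝ) < h.1 y ∧ h.1 y < b) := by
    rw [hAdef]
    exact fun d hd => hd.2
  -- the cut-off function
  obtain ⟨v, hv⟩ : ∃ v : Y → ℝ, v = fun y => max 0 ((h.1 y - a) * (b - h.1 y)) := ⟨_, rfl⟩
  have hvc : Continuous v := by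
    have h1 := mem_Cp.mp h.2
    rw [hv]
    exact continuous_const.max ((h1.sub continuous_const).mul (continuous_const.sub h1))
  have hvpos : ∀ d ∈ A, 0 < v d := by
    intro d hd
    obtain ⟨h1, h2, _⟩ := hA1 d hd
    rw [hv]
    exact lt_max_of_lt_right (mul_pos (by linarith) (by linarith))
  have hv0 : ∀ d ∈ A, ∀ y ∈ K (x d), y ≠ d → v y = 0 := by
    intro d hd y hy hyd
    obtain ⟨h1, h2, h3⟩ := hA1 d hd
    have h4 := h3 y (Finset.mem_erase.mpr ⟨hyd, hy⟩)
    rw [hv]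
    show max 0 ((h.1 y - a) * (b - h.1 y)) = 0
    apply max_eq_left
    by_cases h5 : (a : ℝ) < h.1 y
    · have h6 : ¬ h.1 y < b := fun h6 => h4 ⟨h5, h6⟩
      exact mul_nonpos_of_nonneg_of_nonpos (by linarith) (by linarith)
    · exact mul_nonpos_of_nonpos_of_nonneg (by linarith) (by linarith)
  obtain ⟨w₁, hw₁⟩ := extend hD hdis (fun d => (μ d * v d)⁻¹)
  have hS : ∀ z : X, ∃ U : Set X, IsOpen U ∧ z ∈ U ∧ (U ∩ x '' A).Finite := by
    intro z
    obtain ⟨w₂, hw0, hw1⟩ := urysohn (K z).finite_toSet.isClosed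
      (closed_subset hD hdis (sdiff_subset : D \ (K z : Set Y) ⊆ D)) disjoint_sdiff_right
    obtain ⟨g, hg⟩ : ∃ g : Cp Y, ∀ y, g.1 y = v y * w₁.1 y * w₂.1 y :=
      ⟨⟨fun y => v y * w₁.1 y * w₂.1 y,
        mem_Cp.mpr ((hvc.mul (mem_Cp.mp w₁.2)).mul (mem_Cp.mp w₂.2))⟩, fun y => rfl⟩
    have hgz : (φ.symm g).1 z = 0 := by
      apply hK z g
      intro y hy
      rw [hg, hw0 y hy, mul_zero]
    have hgd : ∀ d ∈ A, d ∉ K z → (φ.symm g).1 (x d) = 1 := by
      intro d hd hdz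
      rw [hμ d g (fun y hy hyd => by rw [hg, hv0 d hd y hy hyd]; ring), hg, hw₁ d (hAD hd),
        hw1 d ⟨hAD hd, hdz⟩]
      have h1 := hμ0 d
      have h2 := (hvpos d hd).ne'
      field_simp
    refine ⟨{x' | (φ.symm g).1 x' < 1/2}, isOpen_lt (mem_Cp.mp (φ.symm g).2) continuous_const,
      ?_, ?_⟩
    · show (φ.symm g).1 z < 1/2
      rw [hgz]; norm_num
    · refine ((K z).finite_toSet.image x).subset ?_
      rintro _ ⟨hU, d, hd, rfl⟩
      refine ⟨d, ?_, rfl⟩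
      by_contra hdz
      have h1 : (φ.symm g).1 (x d) < 1/2 := hU
      rw [hgd d hd hdz] at h1
      norm_num at h1
  obtain ⟨hS1, hS2⟩ := closed_discrete_of (x '' A) hS
  have hcard := hX _ hS1 hS2
  have hAs : #A ≤ τ := by
    have h1 : A ⊆ ⋃ s ∈ x '' A, (K s : Set Y) := by
      intro d hd
      simp only [mem_iUnion]
      exact ⟨x d, mem_image_of_mem x hd, hx d⟩
    refine (mk_le_mk_of_subset h1).trans (small_biUnion hτ _ hcard _ ?_)
    intro s _
    exact ((K s).finite_toSet.lt_aleph0.le).trans hτ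
  exact absurd hAs (not_le.mpr hab)

theorem aleph0_le_extent (Z : Type u) [TopologicalSpace Z] : ℵ₀ ≤ extent Z := self_le_add_right _ _

theorem card_le_extent {Z : Type u} [TopologicalSpace Z] (D : Set Z) (hD : IsClosed D)
    (hdis : DiscreteTopology D) : #D ≤ extent Z := by
  have h1 : #D ≤ ⨆ D : {D : Set Z // IsClosed D ∧ DiscreteTopology D}, #D.1 :=
    le_ciSup (f := fun D : {D : Set Z // IsClosed D ∧ DiscreteTopology D} => #D.1)
      Cardinal.bddAbove_of_small ⟨D, hD, hdis⟩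
  exact h1.trans (self_le_add_left _ _)

/-- If `Y` is normal, `X` is a `T₁` space and `X` and `Y` are `l`-equivalent, then
`ext(Y) ≤ ext(X)`. -/
theorem extent_le [T1Space X] [T4Space Y] (φ : Cp X ≃L[ℝ] Cp Y) : extent Y ≤ extent X := by
  have h1 : (⨆ D : {D : Set Y // IsClosed D ∧ DiscreteTopology D}, #D.1) ≤ extent X :=
    ciSup_le' fun D => card_le φ (extent X) (aleph0_le_extent X)
      (fun S hS hS' => card_le_extent S hS hS') D.1 D.2.1 D.2.2
  calc extent Y ≤ extent X + extent X := add_le_add (aleph0_le_extent X) h1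
    _ = extent X := add_eq_self (aleph0_le_extent X)

end main

/-- **Answer to Q1.** If `X` and `Y` are normal (`T₄`) spaces that are `l`-equivalent, then
`ext(X) = ext(Y)`. -/
theorem result (X Y : Type u) [TopologicalSpace X] [TopologicalSpace Y] [T4Space X] [T4Space Y]
    (h : LEquivalent X Y) : extent X = extent Y := by
  obtain ⟨φ⟩ := h
  exact le_antisymm (extent_le φ.symm) (extent_le φ)

end Pool.Agent.Results.MP_0e046d_gt.NormalExtent
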