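import Mathlib

set_option autoImplicit false

open Cardinal Order Set Filter Topology

namespace Pool.Agent.Results.MP_0e046d_gt.PerfectExtent

universe u

/-- `C_p(X)`: the continuous real-valued functions on `X`, as a linear subspace of `X → ℝ` with the
product topology (the topology of pointwise convergence). It is written as the range of the linear
map that sends a continuous map `X → ℝ` to its underlying function. -/
def Cp (X : Type u) [TopologicalSpace X] : Submodule ℝ (X → ℝ) :=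
  LinearMap.range (ContinuousMap.coeFnLinearMap ℝ : C(X, ℝ) →ₗ[ℝ] X → ℝ)

theorem mem_Cp {X : Type u} [TopologicalSpace X] {f : X → ℝ} : f ∈ Cp X ↔ Continuous f := by
  constructor
  · rintro ⟨g, rfl⟩; exact g.continuous
  · intro hf; exact ⟨⟨f, hf⟩, rfl⟩

/-- `X` and `Y` are `l`-equivalent: there is a linear homeomorphism of `C_p(X)` onto `C_p(Y)`. -/
def LEquivalent (X Y : Type u) [TopologicalSpace X] [TopologicalSpace Y] : Prop :=
  Nonempty (Cp X ≃L[ℝ] Cp Y)

/-- The extent of `X`: `ω` plus the supremum of the cardinalities of the closed discrete subsets. -/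
noncomputable def extent (X : Type u) [TopologicalSpace X] : Cardinal.{u} :=
  ℵ₀ + ⨆ D : {D : Set X // IsClosed D ∧ DiscreteTopology D}, #D.1

section supports

variable {X : Type u} [TopologicalSpace X]

theorem exists_bump [T35Space X] {x : X} {U : Set X} (hU : IsOpen U) (hx : x ∈ U) :
    ∃ f : Cp X, f.1 x = 1 ∧ ∀ z, z ∉ U → f.1 z = 0 := by
  obtain ⟨f, hf, h1, h2⟩ := CompletelyRegularSpace.completely_regular x Uᶜ hU.isClosed_compl
    (by simpa using hx)
  refine ⟨⟨fun z => 1 - (f z : ℝ), ?_⟩, ?_, ?_⟩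
  · exact mem_Cp.mpr (continuous_const.sub (continuous_subtype_val.comp hf))
  · simp [h1]
  · intro z hz
    have := h2 (show z ∈ Uᶜ from hz)
    simp [this]

/-- The support of a functional. -/
def supp (L : Cp X →L[ℝ] ℝ) : Set X :=
  {x | ∀ U, IsOpen U → x ∈ U → ∃ f : Cp X, (∀ z, z ∉ U → f.1 z = 0) ∧ L f ≠ 0}

theorem exists_finite_support (L : Cp X →L[ℝ] ℝ) :
    ∃ K : Finset X, ∀ f : Cp X, (∀ x ∈ K, f.1 x = 0) → L f = 0 := by
  have h1 : {f : Cp X | |L f| < 1} ∈ 𝓝 (0 : Cp X) := by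
    have h2 : Continuous fun f : Cp X => |L f| := continuous_abs.comp L.continuous
    exact (isOpen_lt h2 continuous_const).mem_nhds (by simp)
  rw [nhds_subtype_eq_comap, mem_comap] at h1
  obtain ⟨N, hN, hN2⟩ := h1
  rw [nhds_pi, Filter.mem_pi] at hN
  obtain ⟨I, hI, t, ht, hN3⟩ := hN
  refine ⟨hI.toFinset, fun f hf => ?_⟩
  have h3 : ∀ c : ℝ, |L (c • f)| < 1 := by
    intro c
    apply hN2
    rw [mem_preimage]
    apply hN3
    intro i hi
    have h4 : ((c • f : Cp X) : X → ℝ) i = 0 := by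
      have := hf i (hI.mem_toFinset.mpr hi)
      simp only [Submodule.coe_smul, Pi.smul_apply, smul_eq_mul]
      rw [this, mul_zero]
    rw [h4]
    exact mem_of_mem_nhds (ht i)
  by_contra hne
  have h5 := h3 (2 / L f)
  rw [map_smul, smul_eq_mul, div_mul_cancel₀ _ hne] at h5
  norm_num at h5

theorem supp_subset (L : Cp X →L[ℝ] ℝ) [T1Space X] {K : Finset X}
    (hK : ∀ f : Cp X, (∀ x ∈ K, f.1 x = 0) → L f = 0) : supp L ⊆ K := by
  intro x hx
  by_contra hxK
  obtain ⟨f, hf1, hf2⟩ := hx (K : Set X)ᶜ K.finite_toSet.isClosed.isOpen_compl hxK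
  exact hf2 (hK f fun z hz => hf1 z (by simpa using hz))

theorem supp_finite (L : Cp X →L[ℝ] ℝ) [T1Space X] : (supp L).Finite := by
  obtain ⟨K, hK⟩ := exists_finite_support L
  exact K.finite_toSet.subset (supp_subset L hK)

theorem eq_zero_of_supp [T35Space X] (L : Cp X →L[ℝ] ℝ) (f : Cp X)
    (hf : ∀ x ∈ supp L, f.1 x = 0) : L f = 0 := by
  classical
  obtain ⟨K, hK⟩ := exists_finite_support L
  have h1 : ∀ x : X, ∃ h : Cp X, x ∉ supp L → L h = 0 ∧ h.1 x = 1 ∧ ∀ z ∈ K, z ≠ x → h.1 z = 0 := by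
    intro x
    by_cases hx : x ∈ supp L
    · exact ⟨0, fun h => absurd hx h⟩
    · have hx' := hx
      simp only [supp, mem_ofPred_eq] at hx'
      push Not at hx'
      obtain ⟨U, hU, hxU, hU2⟩ := hx'
      have hV : IsOpen (U ∩ ((K.erase x : Finset X) : Set X)ᶜ) :=
        hU.inter (K.erase x).finite_toSet.isClosed.isOpen_compl
      obtain ⟨h, hh1, hh2⟩ := exists_bump hV (x := x) ⟨hxU, by simp⟩
      refine ⟨h, fun _ => ⟨hU2 h fun z hz => hh2 z fun hz' => hz hz'.1, hh1, ?_⟩⟩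
      intro z hz hzx
      exact hh2 z fun hz' => hz'.2 (by simp [hz, hzx])
  choose h hh using h1
  let f₀ : Cp X := f - ∑ x ∈ K.filter (fun x => x ∉ supp L), f.1 x • h x
  have h2 : L f₀ = 0 := by
    apply hK
    intro z hz
    have h3 : (f₀ : X → ℝ) z = f.1 z - ∑ x ∈ K.filter (fun x => x ∉ supp L), f.1 x * (h x).1 z := by
      simp only [f₀, Submodule.coe_sub, Submodule.coe_sum, Submodule.coe_smul, Pi.sub_apply,
        Finset.sum_apply, Pi.smul_apply, smul_eq_mul]
    rw [h3]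
    by_cases hzs : z ∈ supp L
    · rw [hf z hzs, Finset.sum_eq_zero, sub_zero]
      intro x hx
      rw [Finset.mem_filter] at hx
      rw [(hh x hx.2).2.2 z hz (fun h => hx.2 (h ▸ hzs)), mul_zero]
    · rw [Finset.sum_eq_single z]
      · rw [(hh z hzs).2.1]; ring
      · intro x hx hxz
        rw [Finset.mem_filter] at hx
        rw [(hh x hx.2).2.2 z hz (Ne.symm hxz), mul_zero]
      · intro hz'
        exact absurd (Finset.mem_filter.mpr ⟨hz, hzs⟩) hz'
  have h3 : L f = L f₀ + ∑ x ∈ K.filter (fun x => x ∉ supp L), f.1 x * L (h x) := by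
    have : f = f₀ + ∑ x ∈ K.filter (fun x => x ∉ supp L), f.1 x • h x := by
      simp only [f₀, sub_add_cancel]
    conv_lhs => rw [this]
    rw [map_add, map_sum]
    simp only [map_smul, smul_eq_mul]
  rw [h3, h2, zero_add]
  apply Finset.sum_eq_zero
  intro x hx
  rw [Finset.mem_filter] at hx
  rw [(hh x hx.2).1, mul_zero]

end supports

section maps

variable {X Y : Type u} [TopologicalSpace X] [TopologicalSpace Y]

/-- Evaluation at a point. -/
def ev (y : Y) : Cp Y →L[ℝ] ℝ := (ContinuousLinearMap.proj y).comp (Cp Y).subtypeL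

theorem ev_apply (y : Y) (f : Cp Y) : ev y f = f.1 y := rfl

/-- The support of a point of `Y` in `X`. -/
def sp (T : Cp X →L[ℝ] Cp Y) (y : Y) : Set X := supp ((ev y).comp T)

theorem sp_finite [T1Space X] (T : Cp X →L[ℝ] Cp Y) (y : Y) : (sp T y).Finite := supp_finite _

theorem sp_zero [T35Space X] (T : Cp X →L[ℝ] Cp Y) (y : Y) (f : Cp X)
    (hf : ∀ x ∈ sp T y, f.1 x = 0) : (T f).1 y = 0 :=
  eq_zero_of_supp ((ev y).comp T) f hf

theorem sp_lsc [T35Space X] (T : Cp X →L[ℝ] Cp Y) {U : Set X} (hU : IsOpen U) :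
    IsOpen {y | (sp T y ∩ U).Nonempty} := by
  rw [isOpen_iff_mem_nhds]
  rintro y ⟨x, hx, hxU⟩
  obtain ⟨f, hf1, hf2⟩ := hx U hU hxU
  have h1 : Continuous (T f).1 := mem_Cp.mp (T f).2
  have h2 : {y' | (T f).1 y' ≠ 0} ∈ 𝓝 y := (isOpen_ne_fun h1 continuous_const).mem_nhds hf2
  filter_upwards [h2] with y' hy'
  by_contra hcon
  apply hy'
  apply sp_zero T y' f
  intro z hz
  apply hf1
  intro hzU
  exact hcon ⟨z, hz, hzU⟩

theorem exists_mem_sp [T35Space X] [T35Space Y] (T : Cp X ≃L[ℝ] Cp Y) (y : Y) :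
    ∃ x ∈ sp (T : Cp X →L[ℝ] Cp Y) y, y ∈ sp (T.symm : Cp Y →L[ℝ] Cp X) x := by
  by_contra hcon
  push Not at hcon
  have hfin : (⋃ x ∈ sp (T : Cp X →L[ℝ] Cp Y) y, sp (T.symm : Cp Y →L[ℝ] Cp X) x).Finite :=
    (sp_finite _ y).biUnion fun x _ => sp_finite _ x
  obtain ⟨g, hg1, hg2⟩ := exists_bump (U := (⋃ x ∈ sp (T : Cp X →L[ℝ] Cp Y) y,
    sp (T.symm : Cp Y →L[ℝ] Cp X) x)ᶜ) hfin.isClosed.isOpen_compl (x := y) (by
      simp only [mem_compl_iff, mem_iUnion, not_exists]
      exact hcon)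
  have h1 : ∀ x ∈ sp (T : Cp X →L[ℝ] Cp Y) y, (T.symm g).1 x = 0 := by
    intro x hx
    apply sp_zero (T.symm : Cp Y →L[ℝ] Cp X) x g
    intro z hz
    apply hg2
    simp only [mem_compl_iff, not_not, mem_iUnion]
    exact ⟨x, hx, hz⟩
  have h2 := sp_zero (T : Cp X →L[ℝ] Cp Y) y (T.symm g) h1
  simp only [ContinuousLinearEquiv.coe_coe, ContinuousLinearEquiv.apply_symm_apply] at h2
  rw [hg1] at h2
  exact one_ne_zero h2

/-- The chain argument. -/
theorem chain [T2Space X] [T35Space Y] (S : X → Set Y)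
    (hS : ∀ U : Set Y, IsOpen U → IsOpen {x | (S x ∩ U).Nonempty}) (m : ℕ) (X₀ : Set X)
    (hm : ∀ p ∈ X₀, (S p).ncard = m) (hfin : ∀ p ∈ X₀, (S p).Finite) (y : X → Y)
    (hyS : ∀ p ∈ X₀, y p ∈ S p)
    (hdisc : ∀ p ∈ X₀, ∃ O : Set Y, IsOpen O ∧ y p ∈ O ∧ ∀ q ∈ X₀, y q ∈ O → q = p)
    (D : ℕ → Set X) (hD0 : D 0 ⊆ X₀) (hDs : ∀ k, D (k + 1) ⊆ D k)
    (hDacc : ∀ k, ∀ p ∈ D (k + 1), ∀ W : Set X, IsOpen W → p ∈ W → ∃ q ∈ D k, q ∈ W ∧ q ≠ p) :
    ∀ (k : ℕ) (T : Fin m → Set Y) (J : Finset (Fin m)) (B : Finset X) (p : X),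
      (∀ j, IsOpen (T j)) → (∀ i j, i ≠ j → Disjoint (T i) (T j)) → J.card + k = m →
      p ∈ D k → p ∉ B → (∀ j, (S p ∩ T j).Nonempty) →
      (∀ j ∈ J, ∀ q ∈ X₀, y q ∈ T j → q ∈ B) → False := by
  classical
  have hDX : ∀ k, D k ⊆ X₀ := by
    intro k
    induction k with
    | zero => exact hD0
    | succ k ih => exact (hDs k).trans ih
  -- the point `y p` lies in one of the sets
  have hloc : ∀ (T : Fin m → Set Y) (p : X), p ∈ X₀ → (∀ i j, i ≠ j → Disjoint (T i) (T j)) →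
      (∀ j, (S p ∩ T j).Nonempty) → ∃ j, y p ∈ T j := by
    intro T p hp hT hne
    choose s hs using hne
    have hinj : Function.Injective s := by
      intro i j hij
      by_contra hne
      exact disjoint_left.mp (hT i j hne) (hs i).2 (hij ▸ (hs j).2)
    have h1 : range s = S p := by
      apply Set.eq_of_subset_of_ncard_le
      · rintro _ ⟨j, rfl⟩; exact (hs j).1
      · rw [hm p hp, ← image_univ, ncard_image_of_injective _ hinj, ncard_univ, Nat.card_fin]
      · exact hfin p hp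
    obtain ⟨j, hj⟩ : y p ∈ range s := by rw [h1]; exact hyS p hp
    exact ⟨j, hj ▸ (hs j).2⟩
  intro k
  induction k with
  | zero =>
    intro T J B p hTo hTd hJ hp hpB hne hJB
    obtain ⟨j, hj⟩ := hloc T p (hDX 0 hp) hTd hne
    have hJu : J = Finset.univ := by
      rw [← Finset.card_eq_iff_eq_univ, Fintype.card_fin]; omega
    exact hpB (hJB j (by rw [hJu]; exact Finset.mem_univ j) p (hDX 0 hp) hj)
  | succ k ih =>
    intro T J B p hTo hTd hJ hp hpB hne hJB
    have hpX := hDX _ hp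
    obtain ⟨j₀, hj₀⟩ := hloc T p hpX hTd hne
    have hj₀J : j₀ ∉ J := fun h => hpB (hJB j₀ h p hpX hj₀)
    obtain ⟨O, hO, hO1, hO2⟩ := hdisc p hpX
    let T' : Fin m → Set Y := fun j => if j = j₀ then T j ∩ O else T j
    have hT'sub : ∀ j, T' j ⊆ T j := by
      intro j
      simp only [T']
      split_ifs
      · exact inter_subset_left
      · exact Subset.rfl
    have hT'o : ∀ j, IsOpen (T' j) := by
      intro j
      simp only [T']
      split_ifs
      · exact (hTo j).inter hO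
      · exact hTo j
    have hT'ne : ∀ j, (S p ∩ T' j).Nonempty := by
      intro j
      simp only [T']
      split_ifs with h
      · exact ⟨y p, hyS p hpX, h ▸ hj₀, hO1⟩
      · exact hne j
    have hW : IsOpen ({x | ∀ j, (S x ∩ T' j).Nonempty} ∩ ((B : Set X))ᶜ) := by
      refine IsOpen.inter ?_ B.finite_toSet.isClosed.isOpen_compl
      rw [show {x | ∀ j, (S x ∩ T' j).Nonempty} = ⋂ j, {x | (S x ∩ T' j).Nonempty} by
        ext; simp]
      exact isOpen_iInter_of_finite fun j => hS _ (hT'o j)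
    obtain ⟨q, hq1, hq2, hq3⟩ := hDacc k p hp _ hW ⟨hT'ne, by simpa using hpB⟩
    refine ih T' (insert j₀ J) (insert p B) q hT'o ?_ ?_ hq1 ?_ hq2.1 ?_
    · intro i j hij
      exact (hTd i j hij).mono (hT'sub i) (hT'sub j)
    · rw [Finset.card_insert_of_notMem hj₀J]; omega
    · have := hq2.2
      simp only [mem_compl_iff, Finset.mem_coe] at this
      simp [hq3, this]
    · intro j hj q' hq' hyq'
      rw [Finset.mem_insert] at hj ⊢
      rcases hj with rfl | hj
      · simp only [T', if_true] at hyq'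
        exact Or.inl (hO2 q' hq' hyq'.2)
      · exact Or.inr (hJB j hj q' hq' (hT'sub j hyq'))

/-- a subset whose points are relatively isolated is discrete -/
theorem discrete_of {Z : Type u} [TopologicalSpace Z] (A : Set Z)
    (h : ∀ p ∈ A, ∃ W : Set Z, IsOpen W ∧ p ∈ W ∧ ∀ q ∈ A, q ∈ W → q = p) :
    DiscreteTopology A := by
  rw [discreteTopology_iff_isOpen_singleton]
  rintro ⟨p, hp⟩
  obtain ⟨W, hW, hpW, hW2⟩ := h p hp
  refine isOpen_induced_iff.mpr ⟨W, hW, ?_⟩
  ext ⟨q, hq⟩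
  simp only [mem_preimage, mem_singleton_iff, Subtype.mk.injEq]
  exact ⟨fun h => hW2 q hq h, fun h => h ▸ hpW⟩

theorem of_discrete {Z : Type u} [TopologicalSpace Z] (A : Set Z) (h : DiscreteTopology A)
    (p : Z) (hp : p ∈ A) : ∃ W : Set Z, IsOpen W ∧ p ∈ W ∧ ∀ q ∈ A, q ∈ W → q = p := by
  obtain ⟨W, hW, hW2⟩ := isOpen_induced_iff.mp (discreteTopology_iff_isOpen_singleton.mp h ⟨p, hp⟩)
  refine ⟨W, hW, ?_, ?_⟩
  · have : (⟨p, hp⟩ : A) ∈ Subtype.val ⁻¹' W := by rw [hW2]; rfl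
    exact this
  · intro q hq hqW
    have : (⟨q, hq⟩ : A) ∈ Subtype.val ⁻¹' W := hqW
    rw [hW2, mem_singleton_iff, Subtype.mk.injEq] at this
    exact this

/-- The spread does not increase under `l`-equivalence. -/
theorem discrete_le [T35Space X] [T35Space Y] (T : Cp X ≃L[ℝ] Cp Y) (τ : Cardinal.{u})
    (hτ : ℵ₀ ≤ τ) (hX : ∀ D : Set X, DiscreteTopology D → #D ≤ τ) (D : Set Y)
    (hD : DiscreteTopology D) : #D ≤ τ := by
  classical
  by_contra hcon
  rw [not_le] at hcon
  let S : X → Set Y := sp (T.symm : Cp Y →L[ℝ] Cp X)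
  have hSfin : ∀ p, (S p).Finite := fun p => sp_finite _ p
  choose x hx1 hx2 using exists_mem_sp T
  -- fix the size of the supports
  have h1 : ∃ m, τ < #{y ∈ D | (S (x y)).ncard = m} := by
    by_contra hc
    push Not at hc
    have h2 : D ⊆ ⋃ m : ULift.{u} ℕ, {y ∈ D | (S (x y)).ncard = m.down} := by
      intro y hy
      simp only [mem_iUnion]
      exact ⟨⟨_⟩, hy, rfl⟩
    have h3 : #D ≤ τ := by
      refine (mk_le_mk_of_subset h2).trans ((mk_iUnion_le _).trans ?_)
      calc #(ULift.{u} ℕ) * ⨆ m : ULift.{u} ℕ, #{y ∈ D | (S (x y)).ncard = m.down} ≤ τ * τ := by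
            refine mul_le_mul' ?_ (ciSup_le' fun m => hc m.down)
            simpa using hτ
        _ = τ := mul_eq_self hτ
    exact absurd h3 (not_le.mpr hcon)
  obtain ⟨m, hm⟩ := h1
  set D' : Set Y := {y ∈ D | (S (x y)).ncard = m} with hD'
  let X₀ : Set X := x '' D'
  have hX₀ : τ < #X₀ := by
    by_contra hc
    rw [not_lt] at hc
    have h2 : D' ⊆ ⋃ p ∈ X₀, S p := by
      intro y hy
      simp only [mem_iUnion]
      exact ⟨x y, mem_image_of_mem x hy, hx2 y⟩
    have h3 : #D' ≤ τ := by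
      refine (mk_le_mk_of_subset h2).trans ((mk_biUnion_le _ _).trans ?_)
      calc #X₀ * ⨆ p : X₀, #(S p.1) ≤ τ * τ :=
            mul_le_mul' hc (ciSup_le' fun p => ((hSfin p.1).lt_aleph0.le).trans hτ)
        _ = τ := mul_eq_self hτ
    exact absurd h3 (not_le.mpr hm)
  -- a section
  have hsec : ∀ p, ∃ z, p ∈ X₀ → z ∈ D' ∧ x z = p := by
    intro p
    by_cases hp : p ∈ X₀
    · obtain ⟨z, hz, hz2⟩ := hp
      exact ⟨z, fun _ => ⟨hz, hz2⟩⟩
    · obtain ⟨z, -⟩ : D.Nonempty := by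
        by_contra hne
        rw [not_nonempty_iff_eq_empty] at hne
        rw [hne, mk_eq_zero] at hcon
        exact absurd hcon (by simp)
      exact ⟨z, fun h => absurd h hp⟩
  choose y hy using hsec
  -- iterated derivatives
  obtain ⟨DD, hDD0, hDDs⟩ : ∃ DD : ℕ → Set X, DD 0 = X₀ ∧ ∀ k, DD (k + 1) =
      {p ∈ DD k | ∀ W : Set X, IsOpen W → p ∈ W → ∃ q ∈ DD k, q ∈ W ∧ q ≠ p} :=
    ⟨fun k => Nat.rec (motive := fun _ => Set X) X₀
      (fun _ A => {p ∈ A | ∀ W : Set X, IsOpen W → p ∈ W → ∃ q ∈ A, q ∈ W ∧ q ≠ p}) k,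
      rfl, fun k => rfl⟩
  have hDDcard : ∀ k, τ < #(DD k) := by
    intro k
    induction k with
    | zero => rw [hDD0]; exact hX₀
    | succ k ih =>
      by_contra hc
      rw [not_lt] at hc
      have h2 : DiscreteTopology (DD k \ DD (k + 1) : Set X) := by
        apply discrete_of
        rintro p ⟨hp1, hp2⟩
        rw [hDDs] at hp2
        simp only [mem_ofPred_eq, not_and] at hp2
        have h3 := hp2 hp1
        push Not at h3
        obtain ⟨W, hW1, hW2, hW3⟩ := h3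
        exact ⟨W, hW1, hW2, fun q hq hqW => hW3 q hq.1 hqW⟩
      have h3 := hX _ h2
      have h4 : DD k ⊆ (DD k \ DD (k + 1)) ∪ DD (k + 1) := by
        intro p hp
        by_cases h : p ∈ DD (k + 1)
        · exact Or.inr h
        · exact Or.inl ⟨hp, h⟩
      have h5 : #(DD k) ≤ τ := by
        refine (mk_le_mk_of_subset h4).trans ((mk_union_le _ _).trans ?_)
        calc #(DD k \ DD (k + 1) : Set X) + #(DD (k + 1)) ≤ τ + τ := add_le_add h3 hc
          _ = τ := add_eq_self hτ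
      exact absurd h5 (not_le.mpr ih)
  obtain ⟨p, hp⟩ : (DD m).Nonempty := by
    by_contra hne
    rw [not_nonempty_iff_eq_empty] at hne
    have := hDDcard m
    rw [hne, mk_eq_zero] at this
    exact absurd this (by simp)
  have hDDX : ∀ k, DD k ⊆ X₀ := by
    intro k
    induction k with
    | zero => exact hDD0.subset
    | succ k ih =>
      rw [hDDs]
      exact fun q hq => ih hq.1
  have hpX := hDDX m hp
  have hcardS : ∀ q ∈ X₀, (S q).ncard = m := by
    intro q hq
    have h2 := (hy q hq).1.2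
    rwa [(hy q hq).2] at h2
  obtain ⟨U, hU1, hU2⟩ := (hSfin p).t2_separation
  have hcard : Nat.card (S p) = m := by
    rw [Nat.card_coe_set_eq]; exact hcardS p hpX
  have : Finite (S p) := hSfin p
  let e : Fin m ≃ S p := (Finite.equivFinOfCardEq hcard).symm
  refine chain S (fun U hU => sp_lsc _ hU) m X₀ hcardS (fun q _ => hSfin q) y ?_ ?_ DD
    (hDDX 0) ?_ ?_ m (fun j => U (e j)) ∅ ∅ p ?_ ?_ ?_ hp ?_ ?_ ?_
  · intro q hq
    have h2 := hx2 (y q)
    rwa [(hy q hq).2] at h2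
  · intro q hq
    obtain ⟨O, hO, hO1, hO2⟩ := of_discrete D hD (y q) (hy q hq).1.1
    refine ⟨O, hO, hO1, fun r hr hrO => ?_⟩
    have h2 := hO2 _ (hy r hr).1.1 hrO
    rw [← (hy r hr).2, h2, (hy q hq).2]
  · intro k
    rw [hDDs]
    exact fun q hq => hq.1
  · intro k q hq W hW hqW
    rw [hDDs] at hq
    exact hq.2 W hW hqW
  · intro j; exact (hU1 _).2
  · intro i j hij
    exact hU2 (e i).2 (e j).2 (fun h => hij (e.injective (Subtype.ext h)))
  · simp
  · simp
  · intro j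
    exact ⟨e j, (e j).2, (hU1 _).1⟩
  · simp

end maps

theorem le_extent {X : Type u} [TopologicalSpace X] (D : Set X) (h1 : IsClosed D)
    (h2 : DiscreteTopology D) : #D ≤ extent X := by
  refine le_trans ?_ (self_le_add_left _ _)
  exact le_ciSup (f := fun D : {D : Set X // IsClosed D ∧ DiscreteTopology D} => #D.1)
    Cardinal.bddAbove_of_small ⟨D, h1, h2⟩

theorem extent_le {X : Type u} [TopologicalSpace X] {τ : Cardinal.{u}} (hτ : ℵ₀ ≤ τ)
    (h : ∀ D : Set X, IsClosed D → DiscreteTopology D → #D ≤ τ) : extent X ≤ τ := by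
  calc extent X ≤ τ + τ := add_le_add hτ (ciSup_le' fun D => h D.1 D.2.1 D.2.2)
    _ = τ := add_eq_self hτ

/-- In a perfect space the discrete subsets are not larger than the extent. -/
theorem discrete_le_extent {X : Type u} [TopologicalSpace X] [T1Space X]
    (hG : ∀ F : Set X, IsClosed F → IsGδ F) (D : Set X) (hD : DiscreteTopology D) :
    #D ≤ extent X := by
  have hW := fun p : D => of_discrete D hD p.1 p.2
  choose W hW1 hW2 hW3 using hW
  have hU : IsOpen (⋃ p : D, W p) := isOpen_iUnion hW1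
  have hcl : closure D ∩ (⋃ p : D, W p) = D := by
    apply Subset.antisymm
    · rintro z ⟨hz1, hz2⟩
      obtain ⟨p, hp⟩ := mem_iUnion.mp hz2
      by_contra hzD
      have hne : z ≠ p.1 := fun h => hzD (h ▸ p.2)
      obtain ⟨q, hq1, hq2⟩ := mem_closure_iff.mp hz1 (W p ∩ {p.1}ᶜ)
        ((hW1 p).inter isOpen_compl_singleton) ⟨hp, hne⟩
      exact hq1.2 (hW3 p q hq2 hq1.1)
    · intro z hz
      exact ⟨subset_closure hz, mem_iUnion.mpr ⟨⟨z, hz⟩, hW2 _⟩⟩
  obtain ⟨G, hG1, hG2⟩ := isGδ_iff_eq_iInter_nat.mp (hG _ hU.isClosed_compl)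
  have hDe : D = ⋃ n : ULift.{u} ℕ, D ∩ (G n.down)ᶜ := by
    rw [← inter_iUnion]
    apply Subset.antisymm
    · intro z hz
      refine ⟨hz, ?_⟩
      have h1 : z ∉ (⋃ p : D, W p)ᶜ := by
        simp only [mem_compl_iff, not_not]
        exact mem_iUnion.mpr ⟨⟨z, hz⟩, hW2 _⟩
      rw [hG2, mem_iInter, not_forall] at h1
      obtain ⟨n, hn⟩ := h1
      exact mem_iUnion.mpr ⟨⟨n⟩, hn⟩
    · exact inter_subset_left
  have hpiece : ∀ n : ULift.{u} ℕ, #(D ∩ (G n.down)ᶜ : Set X) ≤ extent X := by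
    intro n
    apply le_extent
    · have h1 : D ∩ (G n.down)ᶜ = closure D ∩ (G n.down)ᶜ := by
        apply Subset.antisymm
        · exact inter_subset_inter_left _ subset_closure
        · rintro z ⟨hz1, hz2⟩
          refine ⟨?_, hz2⟩
          rw [← hcl]
          refine ⟨hz1, ?_⟩
          by_contra hz3
          have h2 : z ∈ (⋃ p : D, W p)ᶜ := hz3
          rw [hG2] at h2
          exact hz2 (mem_iInter.mp h2 n.down)
      rw [h1]
      exact isClosed_closure.inter (hG1 n.down).isClosed_compl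
    · apply discrete_of
      rintro p ⟨hp1, -⟩
      obtain ⟨O, hO1, hO2, hO3⟩ := of_discrete D hD p hp1
      exact ⟨O, hO1, hO2, fun q hq => hO3 q hq.1⟩
  have hinf : ℵ₀ ≤ extent X := self_le_add_right _ _
  calc #D = #(⋃ n : ULift.{u} ℕ, D ∩ (G n.down)ᶜ : Set X) := by rw [← hDe]
    _ ≤ #(ULift.{u} ℕ) * ⨆ n : ULift.{u} ℕ, #(D ∩ (G n.down)ᶜ : Set X) := mk_iUnion_le _
    _ ≤ extent X * extent X := by
        refine mul_le_mul' ?_ (ciSup_le' hpiece)
        simpa using hinf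
    _ = extent X := mul_eq_self hinf

theorem extent_le_of_perfect {X Y : Type u} [TopologicalSpace X] [TopologicalSpace Y] [T35Space X]
    [T35Space Y] (hX : ∀ F : Set X, IsClosed F → IsGδ F) (T : Cp X ≃L[ℝ] Cp Y) :
    extent Y ≤ extent X :=
  extent_le (self_le_add_right _ _) fun D _ hD =>
    discrete_le T _ (self_le_add_right _ _) (discrete_le_extent hX) D hD

/-- **Positive answer to Q2.** If `X` and `Y` are `l`-equivalent and perfectly normal, then
`ext(X) = ext(Y)`. (`T6Space`: a T₁, hence Tychonoff, perfectly normal space.) -/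
theorem result (X Y : Type u) [TopologicalSpace X] [TopologicalSpace Y] [T6Space X] [T6Space Y]
    (h : LEquivalent X Y) : extent X = extent Y := by
  obtain ⟨T⟩ := h
  exact le_antisymm
    (extent_le_of_perfect (fun F hF => PerfectlyNormalSpace.closed_gdelta hF) T.symm)
    (extent_le_of_perfect (fun F hF => PerfectlyNormalSpace.closed_gdelta hF) T)

end Pool.Agent.Results.MP_0e046d_gt.PerfectExtent
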